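import Pool.Agent.H75.NoNuc

set_option autoImplicit false

universe u

open Pool.Agent.H75.NoNuc in
theorem Pool.Agent.Results.MP_c44da7_al.NoAltCenter.result :
    ¬∃ f, Nontrivial'.{u} f ∧ TakesOnly.{u} (@Nalt) f :=
  all.2.2
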